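import Pool.Agent.Lib.MP_6ff8d9_an_h69.Rows
import Pool.Agent.Lib.K708.HolAn

/-!
# MP_6ff8d9 PRIME, row MULT: a local modulus of holomorphic functions is a global one
-/

set_option autoImplicit false

open Metric Filter Topology Set

namespace Pool.Agent.Lib.MP_6ff8d9_an.P69

open Pool.Agent.Lib.MP_6ff8d9_an

namespace Mul77

variable {n : ℕ}

theorem anl {U : Set (Cn n)} (hU : IsOpen U) {f : Cn n → ℂ} (hf : DifferentiableOn ℂ f U) :
    AnalyticOnNhd ℂ f U := by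
  intro z hz
  have h := Pool.Agent.K708.holo_omega_at (G := f) (x := z) (by
    filter_upwards [hU.mem_nhds hz] with y hy
    exact hf.differentiableAt (hU.mem_nhds hy))
  exact h.analyticAt

/-- identity theorem -/
theorem idt {U : Set (Cn n)} (hU : IsOpen U) (hc : IsPreconnected U) {f g : Cn n → ℂ}
    (hf : DifferentiableOn ℂ f U) (hg : DifferentiableOn ℂ g U) {p : Cn n} (hp : p ∈ U)
    (h : f =ᶠ[𝓝 p] g) : EqOn f g U :=
  (anl hU hf).eqOn_of_preconnected_of_eventuallyEq (anl hU hg) hc hp h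

/-- equal moduli -/
theorem mod_eq {U : Set (Cn n)} (hU : IsOpen U) (hc : IsPreconnected U) {f g : Cn n → ℂ}
    (hf : DifferentiableOn ℂ f U) (hg : DifferentiableOn ℂ g U)
    (h : ∀ z ∈ U, ‖g z‖ = ‖f z‖) : ∃ c : ℂ, ‖c‖ = 1 ∧ ∀ z ∈ U, g z = c * f z := by
  by_cases h0 : ∀ z ∈ U, f z = 0
  · refine ⟨1, norm_one, fun z hz => ?_⟩
    rw [h0 z hz, mul_zero]
    have := h z hz
    rw [h0 z hz, norm_zero] at this
    exact norm_eq_zero.1 this
  · push Not at h0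
    obtain ⟨p, hp, hfp⟩ := h0
    have hfd : ∀ z ∈ U, DifferentiableAt ℂ f z := fun z hz => hf.differentiableAt (hU.mem_nhds hz)
    have hgd : ∀ z ∈ U, DifferentiableAt ℂ g z := fun z hz => hg.differentiableAt (hU.mem_nhds hz)
    have hne : ∀ᶠ z in 𝓝 p, f z ≠ 0 := (hfd p hp).continuousAt.eventually_ne hfp
    have hU' : ∀ᶠ z in 𝓝 p, z ∈ U := hU.mem_nhds hp
    have h1 : ∀ᶠ z in 𝓝 p, DifferentiableAt ℂ (fun z => g z / f z) z := by
      filter_upwards [hne, hU'] with z hz1 hz2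
      simp only [div_eq_mul_inv]
      exact (hgd z hz2).mul ((hfd z hz2).inv hz1)
    have hnorm : ∀ z, f z ≠ 0 → z ∈ U → ‖g z / f z‖ = 1 := by
      intro z hz1 hz2
      rw [norm_div, h z hz2, div_self (norm_ne_zero_iff.2 hz1)]
    have h2 : IsLocalMax (norm ∘ fun z => g z / f z) p := by
      filter_upwards [hne, hU'] with z hz1 hz2
      simp only [Function.comp_apply]
      rw [hnorm z hz1 hz2, hnorm p hfp hp]
    have h3 := Complex.eventually_eq_of_isLocalMax_norm h1 h2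
    refine ⟨g p / f p, hnorm p hfp hp, ?_⟩
    have h4 : g =ᶠ[𝓝 p] fun z => g p / f p * f z := by
      filter_upwards [h3, hne] with z hz1 hz2
      rw [← hz1, div_mul_cancel₀ _ hz2]
    exact idt hU hc hg (hf.const_mul _) hp h4

/-- `w` is a good local function on `U` -/
structure Gd (A : Set (Cn n)) (m : Cn n → ℝ) (U : Set (Cn n)) (w : Cn n → ℂ) : Prop where
  op : IsOpen U
  cv : Convex ℝ U
  sub : U ⊆ ball 0 1
  df : DifferentiableOn ℂ w U
  eq : ∀ z ∈ U, z ∉ A → m z = ‖w z‖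

theorem Gd.norm_eq {A : Set (Cn n)} {m : Cn n → ℝ} {U V : Set (Cn n)} {w w' : Cn n → ℂ}
    (hA : ball (0 : Cn n) 1 ⊆ closure (ball (0 : Cn n) 1 \ A)) (h : Gd A m U w) (h' : Gd A m V w') :
    ∀ z ∈ U ∩ V, ‖w z‖ = ‖w' z‖ := by
  intro z hz
  have hUV : IsOpen (U ∩ V) := h.op.inter h'.op
  have hcl : z ∈ closure ((U ∩ V) \ A) := by
    have h1 : z ∈ closure (ball (0 : Cn n) 1 \ A) := hA (h.sub hz.1)
    have h2 := hUV.inter_closure ⟨hz, h1⟩
    refine closure_mono ?_ h2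
    rintro y ⟨hy1, hy2⟩
    exact ⟨hy1, hy2.2⟩
  have hc1 : ContinuousWithinAt (fun z => ‖w z‖) ((U ∩ V) \ A) z :=
    ((h.df.continuousOn z hz.1).mono (sdiff_subset.trans inter_subset_left)).norm
  have hc2 : ContinuousWithinAt (fun z => ‖w' z‖) ((U ∩ V) \ A) z :=
    ((h'.df.continuousOn z hz.2).mono (sdiff_subset.trans inter_subset_right)).norm
  have hne : (𝓝[(U ∩ V) \ A] z).NeBot := mem_closure_iff_nhdsWithin_neBot.1 hcl
  refine tendsto_nhds_unique_of_eventuallyEq hc1 hc2 ?_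
  filter_upwards [self_mem_nhdsWithin] with y hy
  rw [← h.eq y hy.1.1 hy.2, ← h'.eq y hy.1.2 hy.2]

theorem exists_gd {A : Set (Cn n)} {m : Cn n → ℝ}
    (hl : ∀ z0 ∈ ball (0 : Cn n) 1, ∃ w : Cn n → ℂ, ∀ᶠ z in 𝓝 z0,
      DifferentiableAt ℂ w z ∧ (z ∉ A → m z = ‖w z‖)) {z0 : Cn n} (hz0 : z0 ∈ ball (0 : Cn n) 1) :
    ∃ ρ : ℝ, 0 < ρ ∧ ∃ w, Gd A m (ball z0 ρ) w := by
  obtain ⟨w, hw⟩ := hl z0 hz0
  obtain ⟨ρ, hρ, hs⟩ := Metric.eventually_nhds_iff_ball.1
    (hw.and (isOpen_ball.mem_nhds hz0 : ∀ᶠ z in 𝓝 z0, z ∈ ball (0 : Cn n) 1))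
  exact ⟨ρ, hρ, w, isOpen_ball, convex_ball _ _, fun z hz => (hs z hz).2,
    fun z hz => (hs z hz).1.1.differentiableWithinAt, fun z hz => (hs z hz).1.2⟩

/-- continuation along segments -/
theorem cont {A : Set (Cn n)} {m : Cn n → ℝ}
    (hA : ball (0 : Cn n) 1 ⊆ closure (ball (0 : Cn n) 1 \ A))
    (hl : ∀ z0 ∈ ball (0 : Cn n) 1, ∃ w : Cn n → ℂ, ∀ᶠ z in 𝓝 z0,
      DifferentiableAt ℂ w z ∧ (z ∉ A → m z = ‖w z‖)) {δ0 : ℝ} (hδ0 : 0 < δ0) {w0 : Cn n → ℂ}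
    (h0 : Gd A m (ball 0 δ0) w0) {v : Cn n} (hv : v ∈ ball (0 : Cn n) 1) :
    ∃ U w, Gd A m U w ∧ (0 : Cn n) ∈ U ∧ v ∈ U ∧ w =ᶠ[𝓝 0] w0 := by
  classical
  set T : Set ℝ := {t | 0 ≤ t ∧ t ≤ 1 ∧ ∃ U w, Gd A m U w ∧ (∀ s : ℝ, 0 ≤ s → s ≤ t → s • v ∈ U) ∧
    w =ᶠ[𝓝 0] w0} with hT
  have hT0 : (0 : ℝ) ∈ T := by
    refine ⟨le_refl _, zero_le_one, ball 0 δ0, w0, h0, ?_, EventuallyEq.refl _ _⟩
    intro s hs1 hs2
    have : s = 0 := le_antisymm hs2 hs1
    rw [this, zero_smul]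
    exact mem_ball_self hδ0
  have hTb : BddAbove T := ⟨1, fun t ht => ht.2.1⟩
  set ts := sSup T with hts
  have hts0 : 0 ≤ ts := le_csSup hTb hT0
  have hts1 : ts ≤ 1 := csSup_le ⟨0, hT0⟩ fun t ht => ht.2.1
  have hmem : ∀ s : ℝ, 0 ≤ s → s ≤ 1 → s • v ∈ ball (0 : Cn n) 1 := by
    intro s hs1 hs2
    rw [mem_ball_zero_iff] at hv ⊢
    rw [norm_smul, Real.norm_eq_abs, abs_of_nonneg hs1]
    nlinarith [norm_nonneg v]
  obtain ⟨ρ, hρ, ws, hws⟩ := exists_gd hl (hmem ts hts0 hts1)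
  set κ : ℝ := ρ / (2 * (‖v‖ + 1)) with hκ
  have hv1 : 0 < ‖v‖ + 1 := by positivity
  have hκ0 : 0 < κ := by positivity
  have hκv : κ * ‖v‖ < ρ := by
    have h1 : κ * ‖v‖ ≤ κ * (‖v‖ + 1) := mul_le_mul_of_nonneg_left (by linarith) hκ0.le
    have h2 : κ * (‖v‖ + 1) = ρ / 2 := by rw [hκ]; field_simp
    linarith
  have hball : ∀ s : ℝ, |s - ts| ≤ κ → s • v ∈ ball (ts • v) ρ := by
    intro s hs
    rw [mem_ball, dist_eq_norm, ← sub_smul, norm_smul, Real.norm_eq_abs]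
    exact (mul_le_mul_of_nonneg_right hs (norm_nonneg _)).trans_lt hκv
  obtain ⟨t, htT, htlt⟩ := exists_lt_of_lt_csSup ⟨0, hT0⟩ (by linarith : ts - κ < sSup T)
  have htle : t ≤ ts := le_csSup hTb htT
  obtain ⟨ht0, ht1, U, w, hU, hUs, hUw⟩ := htT
  have h0U : (0 : Cn n) ∈ U := by
    have := hUs 0 (le_refl _) ht0
    rwa [zero_smul] at this
  -- the intersection
  have hint : IsPreconnected (ball (ts • v) ρ ∩ U) := (hws.cv.inter hU.cv).isPreconnected
  obtain ⟨c, hc1, hc⟩ := mod_eq (hws.op.inter hU.op) hint (hws.df.mono inter_subset_left)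
    (hU.df.mono inter_subset_right) (fun z hz => (Gd.norm_eq hA hU hws z ⟨hz.2, hz.1⟩))
  set wt : Cn n → ℂ := fun z => if z ∈ U then w z else c * ws z with hwt
  have hwtU : ∀ z ∈ U, wt z = w z := fun z hz => if_pos hz
  have hwtB : ∀ z ∈ ball (ts • v) ρ, wt z = c * ws z := by
    intro z hz
    by_cases hzU : z ∈ U
    · rw [hwtU z hzU, hc z ⟨hz, hzU⟩]
    · exact if_neg hzU
  have hO : IsOpen (U ∪ ball (ts • v) ρ) := hU.op.union hws.op
  have hwtd : ∀ z ∈ U ∪ ball (ts • v) ρ, DifferentiableAt ℂ wt z := by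
    rintro z (hz | hz)
    · refine (hU.df.differentiableAt (hU.op.mem_nhds hz)).congr_of_eventuallyEq ?_
      filter_upwards [hU.op.mem_nhds hz] with y hy using hwtU y hy
    · refine ((hws.df.differentiableAt (hws.op.mem_nhds hz)).const_mul c).congr_of_eventuallyEq ?_
      filter_upwards [hws.op.mem_nhds hz] with y hy using hwtB y hy
  have hwtm : ∀ z ∈ U ∪ ball (ts • v) ρ, z ∉ A → m z = ‖wt z‖ := by
    rintro z (hz | hz) hzA
    · rw [hwtU z hz, hU.eq z hz hzA]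
    · rw [hwtB z hz, norm_mul, hc1, one_mul, hws.eq z hz hzA]
  -- the new parameter
  set t' : ℝ := min 1 (ts + κ) with ht'
  have ht'0 : 0 ≤ t' := le_min zero_le_one (by linarith)
  have hseg : ∀ s : ℝ, 0 ≤ s → s ≤ t' → s • v ∈ U ∪ ball (ts • v) ρ := by
    intro s hs1 hs2
    rcases le_or_gt s t with h | h
    · exact Or.inl (hUs s hs1 h)
    · refine Or.inr (hball s ?_)
      rw [abs_le]
      have h3 : s ≤ ts + κ := hs2.trans (min_le_right _ _)
      constructor <;> linarith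
  have hcomp : IsCompact (segment ℝ (0 : Cn n) (t' • v)) := by
    rw [segment_eq_image]
    exact isCompact_Icc.image (by fun_prop)
  have hsegsub : segment ℝ (0 : Cn n) (t' • v) ⊆ U ∪ ball (ts • v) ρ := by
    rw [segment_eq_image]
    rintro _ ⟨θ, hθ, rfl⟩
    simp only [smul_zero, zero_add, smul_smul]
    exact hseg _ (mul_nonneg hθ.1 ht'0) (by nlinarith [hθ.1, hθ.2])
  obtain ⟨δ, hδ, hth⟩ := hcomp.exists_thickening_subset_open hO hsegsub
  have hT' : t' ∈ T := by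
    refine ⟨ht'0, min_le_left _ _, thickening δ (segment ℝ (0 : Cn n) (t' • v)), wt,
      ⟨isOpen_thickening, (convex_segment _ _).thickening δ, ?_, ?_, ?_⟩, ?_, ?_⟩
    · intro z hz
      rcases hth hz with h | h
      · exact hU.sub h
      · exact hws.sub h
    · exact fun z hz => (hwtd z (hth hz)).differentiableWithinAt
    · exact fun z hz => hwtm z (hth hz)
    · intro s hs1 hs2
      refine self_subset_thickening hδ _ ?_
      rcases eq_or_lt_of_le ht'0 with h | h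
      · have : s = 0 := le_antisymm (hs2.trans h.symm.le) hs1
        rw [this, zero_smul]
        exact left_mem_segment _ _ _
      · rw [segment_eq_image]
        refine ⟨s / t', ⟨div_nonneg hs1 ht'0, div_le_one_of_le₀ hs2 ht'0⟩, ?_⟩
        simp only [smul_zero, zero_add, smul_smul]
        rw [div_mul_cancel₀ _ h.ne']
    · refine EventuallyEq.trans ?_ hUw
      filter_upwards [hU.op.mem_nhds h0U] with y hy using hwtU y hy
  have hle : t' ≤ ts := le_csSup hTb hT'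
  have ht'1 : t' = 1 := by
    rcases min_choice (1 : ℝ) (ts + κ) with h | h
    · exact h
    · exfalso
      have : t' = ts + κ := h
      linarith
  obtain ⟨_, _, U', w', hU', hUs', hUw'⟩ := hT'
  refine ⟨U', w', hU', ?_, ?_, hUw'⟩
  · have := hUs' 0 (le_refl _) ht'0
    rwa [zero_smul] at this
  · have := hUs' 1 zero_le_one (by rw [ht'1])
    rwa [one_smul] at this

end Mul77

open Mul77

/-- row MULT -/
theorem mult : MULT := by
  classical
  intro n A m hA hl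
  have h00 : (0 : Cn n) ∈ ball (0 : Cn n) 1 := mem_ball_self one_pos
  obtain ⟨δ0, hδ0, w0, h0⟩ := exists_gd hl h00
  have hcont : ∀ v ∈ ball (0 : Cn n) 1, ∃ U w, Gd A m U w ∧ (0 : Cn n) ∈ U ∧ v ∈ U ∧
      w =ᶠ[𝓝 0] w0 := fun v hv => cont hA hl hδ0 h0 hv
  choose! U w hG hU0 hUv hw0 using hcont
  have key : ∀ z0 ∈ ball (0 : Cn n) 1, ∀ z ∈ U z0, w z z = w z0 z := by
    intro z0 hz0 z hz
    have hzb : z ∈ ball (0 : Cn n) 1 := (hG z0 hz0).sub hz
    exact idt ((hG z hzb).op.inter (hG z0 hz0).op)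
      ((hG z hzb).cv.inter (hG z0 hz0).cv).isPreconnected
      ((hG z hzb).df.mono inter_subset_left) ((hG z0 hz0).df.mono inter_subset_right)
      ⟨hU0 z hzb, hU0 z0 hz0⟩ ((hw0 z hzb).trans (hw0 z0 hz0).symm) ⟨hUv z hzb, hz⟩
  refine ⟨fun z => w z z, fun z0 hz0 => ?_, fun z hz hzA => (hG z hz).eq z (hUv z hz) hzA⟩
  have h1 : DifferentiableAt ℂ (w z0) z0 :=
    (hG z0 hz0).df.differentiableAt ((hG z0 hz0).op.mem_nhds (hUv z0 hz0))
  refine (h1.congr_of_eventuallyEq ?_).differentiableWithinAt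
  filter_upwards [(hG z0 hz0).op.mem_nhds (hUv z0 hz0)] with z hz using key z0 hz0 z hz

end Pool.Agent.Lib.MP_6ff8d9_an.P69
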