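import Pool.Agent.Lib.MP_6ff8d9_an_h22.Rows

/-!
# MP_6ff8d9 RATIONAL, row B8: the forms `k f^j df` are exact on the ball
-/

set_option autoImplicit false

open Metric Filter Topology MvPolynomial
open scoped ComplexConjugate

namespace Pool.Agent.Lib.MP_6ff8d9_an.H22

open Pool.Agent.Lib.MP_6ff8d9_an Pool.Agent.Lib.MP_6ff8d9_an.Hom

namespace Poinc

variable {n : ℕ}

theorem isOpen_Bn (n : ℕ) : IsOpen (Bn n) := by
  unfold Bn
  exact isOpen_lt (by fun_prop) continuous_const

theorem convex_Bn (n : ℕ) : Convex ℝ (Bn n) := by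
  intro x hx y hy a b ha hb hab
  have h1 : ∑ i, ‖(a • x + b • y) i‖ ^ 2 ≤ a * ∑ i, ‖x i‖ ^ 2 + b * ∑ i, ‖y i‖ ^ 2 := by
    rw [Finset.mul_sum, Finset.mul_sum, ← Finset.sum_add_distrib]
    refine Finset.sum_le_sum fun i _ => ?_
    have h2 : ‖(a • x + b • y) i‖ ≤ a * ‖x i‖ + b * ‖y i‖ := by
      have h3 : (a • x + b • y) i = a • x i + b • y i := rfl
      rw [h3]
      refine (norm_add_le _ _).trans ?_
      rw [norm_smul, norm_smul, Real.norm_eq_abs, Real.norm_eq_abs, abs_of_nonneg ha,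
        abs_of_nonneg hb]
    have h4 : ‖(a • x + b • y) i‖ ^ 2 ≤ (a * ‖x i‖ + b * ‖y i‖) ^ 2 :=
      pow_le_pow_left₀ (norm_nonneg _) h2 2
    have hb' : b = 1 - a := by linarith
    subst hb'
    nlinarith [mul_nonneg (mul_nonneg ha hb) (sq_nonneg (‖x i‖ - ‖y i‖))]
  have hx' : ∑ i, ‖x i‖ ^ 2 < 1 := hx
  have hy' : ∑ i, ‖y i‖ ^ 2 < 1 := hy
  show ∑ i, ‖(a • x + b • y) i‖ ^ 2 < 1
  refine lt_of_le_of_lt h1 ?_
  rcases eq_or_lt_of_le ha with h | h
  · have hb1 : b = 1 := by linarith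
    rw [← h, hb1]
    linarith
  · nlinarith [mul_lt_mul_of_pos_left hx' h, mul_le_mul_of_nonneg_left hy'.le hb]

theorem analyticAt_eval (p : MvPolynomial (Fin n) ℂ) (z : Fin n → ℂ) :
    AnalyticAt ℂ (fun z : Fin n → ℂ => eval z p) z := by
  induction p using MvPolynomial.induction_on with
  | C a => simpa using analyticAt_const
  | add p q hp hq =>
    have e : (fun z : Fin n → ℂ => eval z (p + q)) =
        (fun z : Fin n → ℂ => eval z p) + (fun z : Fin n → ℂ => eval z q) := by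
      funext z; simp
    rw [e]
    exact hp.add hq
  | mul_X p i hp =>
    have h : AnalyticAt ℂ (fun z : Fin n → ℂ => z i) z :=
      (ContinuousLinearMap.proj (R := ℂ) (φ := fun _ : Fin n => ℂ) i).analyticAt z
    have e : (fun z : Fin n → ℂ => eval z (p * X i)) =
        (fun z : Fin n → ℂ => eval z p) * (fun z : Fin n → ℂ => z i) := by
      funext z; simp
    rw [e]
    exact hp.mul h

theorem hasFDerivAt_eval (p : MvPolynomial (Fin n) ℂ) (z : Fin n → ℂ) (j : Fin n) :
    fderiv ℂ (fun z : Fin n → ℂ => eval z p) z (Pi.single j 1) = eval z (pderiv j p) := by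
  induction p using MvPolynomial.induction_on with
  | C a => simp
  | add p q hp hq =>
    have e : (fun z : Fin n → ℂ => eval z (p + q)) =
        (fun z : Fin n → ℂ => eval z p) + (fun z : Fin n → ℂ => eval z q) := by
      funext z; simp
    rw [e, fderiv_add (analyticAt_eval p z).differentiableAt
      (analyticAt_eval q z).differentiableAt]
    simp [hp, hq]
  | mul_X p i hp =>
    have e : (fun z : Fin n → ℂ => eval z (p * X i)) =
        fun z : Fin n → ℂ => eval z p * (ContinuousLinearMap.proj (R := ℂ)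
          (φ := fun _ : Fin n => ℂ) i) z := by
      funext z; simp
    rw [e, fderiv_fun_mul (analyticAt_eval p z).differentiableAt
      (ContinuousLinearMap.differentiableAt _)]
    simp only [ContinuousLinearMap.fderiv, add_apply,
      smul_apply, hp, ContinuousLinearMap.proj_apply, smul_eq_mul,
      Derivation.leibniz, pderiv_X, map_add, map_mul, eval_X]
    by_cases hij : j = i
    · subst hij; simp
    · simp [Pi.single_eq_of_ne (Ne.symm hij)]

theorem analyticAt_fr (P Q : MvPolynomial (Fin n) ℂ) (z : Fin n → ℂ) (hz : eval z Q ≠ 0) :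
    AnalyticAt ℂ (fr P Q) z := by
  unfold fr
  exact (analyticAt_eval P z).div (analyticAt_eval Q z) hz

theorem fderiv_fr (P Q : MvPolynomial (Fin n) ℂ) (z : Fin n → ℂ) (hz : eval z Q ≠ 0) (j : Fin n) :
    fderiv ℂ (fr P Q) z (Pi.single j 1) = eval z (Wr P Q j) / eval z Q ^ 2 := by
  have hQ := (analyticAt_eval Q z).differentiableAt
  have hf := (analyticAt_fr P Q z hz).differentiableAt
  have h1 : (fun y : Fin n → ℂ => fr P Q y * eval y Q) =ᶠ[𝓝 z] fun y => eval y P := by
    have h2 : ∀ᶠ y in 𝓝 z, eval y Q ≠ 0 := hQ.continuousAt.eventually_ne hz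
    filter_upwards [h2] with y hy
    simp only [fr]
    field_simp
  have h3 := congrArg (fun φ : (Fin n → ℂ) →L[ℂ] ℂ => φ (Pi.single j 1)) h1.fderiv_eq
  rw [fderiv_fun_mul hf hQ] at h3
  simp only [add_apply, smul_apply, hasFDerivAt_eval, smul_eq_mul] at h3
  have h4 : fr P Q z = eval z P / eval z Q := rfl
  rw [h4] at h3
  simp only [Wr, map_sub, map_mul]
  field_simp at h3 ⊢
  linear_combination h3

/-- a linear form on `Fin n → ℂ` -/
theorem apply_eq_sum (φ : (Fin n → ℂ) →L[ℂ] ℂ) (x : Fin n → ℂ) :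
    φ x = ∑ i, x i * φ (Pi.single i 1) := by
  conv_lhs => rw [← Finset.univ_sum_single x]
  rw [map_sum]
  refine Finset.sum_congr rfl fun i _ => ?_
  have h : (Pi.single i (x i) : Fin n → ℂ) = x i • (Pi.single i (1 : ℂ) : Fin n → ℂ) := by
    ext j
    by_cases hij : j = i
    · subst hij; simp
    · simp [Pi.single_eq_of_ne hij]
  rw [h, map_smul, smul_eq_mul]

theorem wedge_all {φ ψ : (Fin n → ℂ) →L[ℂ] ℂ}
    (h : ∀ i j, ψ (Pi.single j 1) * φ (Pi.single i 1) = ψ (Pi.single i 1) * φ (Pi.single j 1))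
    (x y : Fin n → ℂ) : φ x * ψ y = φ y * ψ x := by
  rw [apply_eq_sum φ x, apply_eq_sum ψ y, apply_eq_sum φ y, apply_eq_sum ψ x,
    Finset.sum_mul_sum, Finset.sum_mul_sum, Finset.sum_comm]
  refine Finset.sum_congr rfl fun j _ => Finset.sum_congr rfl fun i _ => ?_
  have := h i j
  linear_combination (x i * y j) * this

end Poinc

open Poinc

/-- row B8 -/
theorem poinc : POINC := by
  intro n P Q hadm k hk hw j
  have hQ : ∀ z ∈ Bn n, eval z Q ≠ 0 := fun z hz => hadm.Qne z (le_of_lt hz)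
  have hop := isOpen_Bn n
  have hfr : ∀ z ∈ Bn n, AnalyticAt ℂ (fr P Q) z := fun z hz => analyticAt_fr P Q z (hQ z hz)
  have hkd : ∀ z ∈ Bn n, DifferentiableAt ℂ k z := fun z hz =>
    hk.differentiableAt (hop.mem_nhds hz)
  set c : (Fin n → ℂ) → ℂ := fun z => k z * fr P Q z ^ j with hc
  have hcd : ∀ z ∈ Bn n, DifferentiableAt ℂ c z := fun z hz =>
    (hkd z hz).mul ((hfr z hz).differentiableAt.pow j)
  have hfd : ∀ z ∈ Bn n, DifferentiableAt ℂ (fun z => fderiv ℂ (fr P Q) z) z := fun z hz =>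
    (hfr z hz).fderiv.differentiableAt
  -- the wedge condition for `c`
  have hwk : ∀ z ∈ Bn n, ∀ x y, fderiv ℂ k z x * fderiv ℂ (fr P Q) z y =
      fderiv ℂ k z y * fderiv ℂ (fr P Q) z x := by
    intro z hz x y
    refine wedge_all (fun i j => ?_) x y
    rw [fderiv_fr P Q z (hQ z hz), fderiv_fr P Q z (hQ z hz)]
    have := hw z hz i j
    rw [div_mul_eq_mul_div, div_mul_eq_mul_div, this]
  have hcf : ∀ z ∈ Bn n, ∀ x, fderiv ℂ c z x = fr P Q z ^ j * fderiv ℂ k z x +
      k z * (j * fr P Q z ^ (j - 1)) * fderiv ℂ (fr P Q) z x := by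
    intro z hz x
    have h1 : HasFDerivAt c _ z := (hkd z hz).hasFDerivAt.mul
      ((hfr z hz).differentiableAt.hasFDerivAt.pow j)
    rw [h1.fderiv]
    simp only [add_apply, smul_apply, smul_eq_mul,
      nsmul_eq_mul]
    ring
  have hwc : ∀ z ∈ Bn n, ∀ x y, fderiv ℂ c z x * fderiv ℂ (fr P Q) z y =
      fderiv ℂ c z y * fderiv ℂ (fr P Q) z x := by
    intro z hz x y
    rw [hcf z hz, hcf z hz]
    linear_combination (fr P Q z ^ j) * hwk z hz x y
  -- the form
  obtain ⟨h, hh⟩ := Convex.exists_forall_hasFDerivAt_of_fderiv_symmetric (𝕜 := ℂ)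
    (ω := fun z => c z • fderiv ℂ (fr P Q) z) (convex_Bn n) hop
    (fun z hz => (((hcd z hz).smul (hfd z hz)).restrictScalars ℝ).differentiableWithinAt)
    (by
      intro a ha x y
      have hd := (hcd a ha).smul (hfd a ha)
      have h1 : HasFDerivAt (fun z => c z • fderiv ℂ (fr P Q) z) _ a :=
        (hcd a ha).hasFDerivAt.smul (hfd a ha).hasFDerivAt
      have h2 := (h1.restrictScalars ℝ).fderiv
      rw [h2]
      have hs : fderiv ℂ (fderiv ℂ (fr P Q)) a x y = fderiv ℂ (fderiv ℂ (fr P Q)) a y x := by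
        have h3 : ContDiffAt ℂ (minSmoothness ℂ 2) (fr P Q) a := (hfr a ha).contDiffAt
        exact (h3.isSymmSndFDerivAt le_rfl).eq x y
      have e := hwc a ha x y
      have e1 : fderiv ℂ (fun z => fderiv ℂ (fr P Q) z) a = fderiv ℂ (fderiv ℂ (fr P Q)) a := rfl
      simp only [ContinuousLinearMap.coe_restrictScalars', add_apply,
        smul_apply, ContinuousLinearMap.smulRight_apply, smul_eq_mul, e1, hs]
      linear_combination e)
  refine ⟨h, fun z hz => (hh z hz).differentiableAt.differentiableWithinAt, ?_,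
    fun z hz => (hh z hz).fderiv⟩
  intro z hz i l
  rw [(hh z hz).fderiv]
  simp only [smul_apply, smul_eq_mul]
  rw [fderiv_fr P Q z (hQ z hz), fderiv_fr P Q z (hQ z hz)]
  ring

end Pool.Agent.Lib.MP_6ff8d9_an.H22
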