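import Pool.Agent.Lib.MP_6ff8d9_an_h77.Poinc

/-!
# MP_6ff8d9 RATIONAL, row B5: the radial curves `t ↦ f((1-t)m)` at a contact point
-/

set_option autoImplicit false

open Metric Filter Topology MvPolynomial
open scoped ComplexConjugate

namespace Pool.Agent.Lib.MP_6ff8d9_an.H22

open Pool.Agent.Lib.MP_6ff8d9_an Pool.Agent.Lib.MP_6ff8d9_an.Hom

namespace Radial

open Poinc

variable {n : ℕ}

/-- the radial curve -/
theorem hasDerivAt_ray (m : Fin n → ℂ) (t : ℝ) :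
    HasDerivAt (fun t : ℝ => (1 - (t : ℂ)) • m) (-m) t := by
  have h1 : HasDerivAt (fun t : ℝ => (1 : ℂ) - (t : ℂ)) (-1) t := by
    have := (Complex.ofRealCLM.hasDerivAt (x := t)).const_sub (1 : ℂ)
    simpa using this
  have h2 := h1.smul_const m
  simpa using h2

theorem continuous_ray (m : Fin n → ℂ) : Continuous (fun t : ℝ => (1 - (t : ℂ)) • m) := by
  refine continuous_iff_continuousAt.2 fun t => (hasDerivAt_ray m t).continuousAt

/-- the points `(1-t) m`, `0 < t ≤ 1`, are in the ball -/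
theorem ray_mem {m : Fin n → ℂ} (hm : ∑ i, ‖m i‖ ^ 2 = 1) {t : ℝ} (h0 : 0 < t) (h1 : t ≤ 1) :
    (1 - (t : ℂ)) • m ∈ Bn n := by
  show ∑ i, ‖((1 - (t : ℂ)) • m) i‖ ^ 2 < 1
  have h2 : ∀ i, ‖((1 - (t : ℂ)) • m) i‖ ^ 2 = (1 - t) ^ 2 * ‖m i‖ ^ 2 := by
    intro i
    have h3 : ((1 - (t : ℂ)) • m) i = ((1 - t : ℝ) : ℂ) * m i := by
      simp [Pi.smul_apply]
    rw [h3, norm_mul, mul_pow, Complex.norm_real, Real.norm_eq_abs, sq_abs]
  rw [Finset.sum_congr rfl fun i _ => h2 i, ← Finset.mul_sum, hm]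
  nlinarith

end Radial

open Poinc Radial

/-- row B5 -/
theorem radial_of (hCon : CONTACT) : RADIAL := by
  intro n P Q hadm m hm
  obtain ⟨hm1, hm2⟩ := hm
  have hQm : eval m Q ≠ 0 := hadm.Qne m (le_of_eq hm1)
  have hPm : eval m P ≠ 0 := by
    intro h
    rw [h, norm_zero] at hm2
    exact hQm (norm_eq_zero.1 hm2.symm)
  have hray0 : (fun t : ℝ => (1 - (t : ℂ)) • m) 0 = m := by simp
  have hrayt : Tendsto (fun t : ℝ => (1 - (t : ℂ)) • m) (𝓝 0) (𝓝 m) := by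
    have := (continuous_ray m).tendsto 0
    simpa using this
  have hfrm := analyticAt_fr P Q m hQm
  refine ⟨?_, ?_⟩
  · exact (hfrm.continuousAt.tendsto.comp hrayt).mono_left nhdsWithin_le_nhds
  · -- the derivative near `0`
    obtain ⟨b, hb, hR⟩ := (hCon n P Q hadm m ⟨hm1, hm2⟩).2
    have hRm : eval m (Rr P Q) ≠ 0 := by
      rw [hR]
      exact mul_ne_zero (by exact_mod_cast hb.ne') (mul_ne_zero hPm hQm)
    have hRc : ∀ᶠ z in 𝓝 m, eval z (Rr P Q) ≠ 0 :=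
      (analyticAt_eval (Rr P Q) m).continuousAt.eventually_ne hRm
    have hQc : ∀ᶠ z in 𝓝 m, eval z Q ≠ 0 :=
      (analyticAt_eval Q m).continuousAt.eventually_ne hQm
    have h1 : ∀ᶠ t : ℝ in 𝓝[>] 0, eval ((1 - (t : ℂ)) • m) (Rr P Q) ≠ 0 :=
      (hrayt.eventually hRc).filter_mono nhdsWithin_le_nhds
    have h2 : ∀ᶠ t : ℝ in 𝓝[>] 0, eval ((1 - (t : ℂ)) • m) Q ≠ 0 :=
      (hrayt.eventually hQc).filter_mono nhdsWithin_le_nhds
    have h3 : ∀ᶠ t : ℝ in 𝓝[>] 0, t < 1 := by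
      have : ∀ᶠ t : ℝ in 𝓝 (0 : ℝ), t < 1 := gt_mem_nhds one_pos
      exact this.filter_mono nhdsWithin_le_nhds
    have h4 : ∀ᶠ t : ℝ in 𝓝[>] 0, 0 < t := self_mem_nhdsWithin
    filter_upwards [h1, h2, h3, h4] with t ht1 ht2 ht3 ht4
    have hmem : (1 - (t : ℂ)) • m ∈ Bn n := ray_mem hm1 ht4 ht3.le
    refine ⟨?_, ?_⟩
    · have h5 := hadm.lt _ hmem
      unfold fr
      rw [norm_div, div_lt_one (norm_pos_iff.2 ht2)]
      exact h5
    · have h6 : HasFDerivAt (fr P Q) (fderiv ℂ (fr P Q) ((1 - (t : ℂ)) • m))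
          ((fun t : ℝ => (1 - (t : ℂ)) • m) t) :=
        (analyticAt_fr P Q _ ht2).differentiableAt.hasFDerivAt
      have h7 : HasDerivAt (fun t : ℝ => fr P Q ((1 - (t : ℂ)) • m))
          ((fderiv ℂ (fr P Q) ((1 - (t : ℂ)) • m)) (-m)) t := by
        have h6' := h6.restrictScalars ℝ
        have h6'' := HasFDerivAt.comp_hasDerivAt t h6' (hasDerivAt_ray m t)
        exact h6''
      refine ⟨_, ?_, h7⟩
      intro h8
      apply ht1
      have hs : (1 - (t : ℂ)) ≠ 0 := by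
        have : ((1 - t : ℝ) : ℂ) ≠ 0 := by exact_mod_cast (by linarith : (1 - t : ℝ) ≠ 0)
        simpa using this
      have h9 : (fderiv ℂ (fr P Q) ((1 - (t : ℂ)) • m)) ((1 - (t : ℂ)) • m) = 0 := by
        rw [map_smul]
        rw [map_neg, neg_eq_zero] at h8
        rw [h8, smul_zero]
      rw [apply_eq_sum] at h9
      have h10 : ∑ i, ((1 - (t : ℂ)) • m) i * (eval ((1 - (t : ℂ)) • m) (Wr P Q i) /
          eval ((1 - (t : ℂ)) • m) Q ^ 2) = 0 := by
        rw [← h9]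
        refine Finset.sum_congr rfl fun i _ => ?_
        rw [fderiv_fr P Q _ ht2 i]
      have h11 : eval ((1 - (t : ℂ)) • m) (Rr P Q) =
          eval ((1 - (t : ℂ)) • m) Q ^ 2 * ∑ i, ((1 - (t : ℂ)) • m) i *
            (eval ((1 - (t : ℂ)) • m) (Wr P Q i) / eval ((1 - (t : ℂ)) • m) Q ^ 2) := by
        rw [Finset.mul_sum]
        unfold Rr
        rw [map_sum]
        refine Finset.sum_congr rfl fun i _ => ?_
        rw [map_mul, eval_X]
        field_simp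
      rw [h11, h10, mul_zero]

end Pool.Agent.Lib.MP_6ff8d9_an.H22
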