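import Pool.Agent.Lib.MP_6ff8d9_an_h11.Rows
import Pool.Agent.Lib.K708.HdOsg

/-!
# MP_6ff8d9 PERRON, rows PHA and PHRE: pluriharmonic functions on balls are real parts
-/

set_option autoImplicit false

open Metric Filter Topology

namespace Pool.Agent.Lib.MP_6ff8d9_an.H11

open Pool.Agent.Lib.MP_6ff8d9_an

namespace Ph

variable {n : ℕ}

/-- the real part of a complex linear form -/
noncomputable def rp (A : Cn n →L[ℂ] ℂ) : Cn n →L[ℝ] ℝ :=
  Complex.reCLM.comp (A.restrictScalars ℝ)

theorem rp_apply (A : Cn n →L[ℂ] ℂ) (x : Cn n) : rp A x = (A x).re := rfl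

/-- a complex linear form is determined by its real part -/
theorem rp_inj {A B : Cn n →L[ℂ] ℂ} (h : rp A = rp B) : A = B := by
  ext x
  have h1 : (A x).re = (B x).re := by
    rw [← rp_apply, h, rp_apply]
  have h2 : (A (Complex.I • x)).re = (B (Complex.I • x)).re := by
    rw [← rp_apply, h, rp_apply]
  rw [map_smul, map_smul, smul_eq_mul, smul_eq_mul] at h2
  simp only [Complex.mul_re, Complex.I_re, Complex.I_im, zero_mul, one_mul, zero_sub] at h2
  exact Complex.ext h1 (by linarith)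

/-- the real part as a real linear map of the forms -/
noncomputable def rpL : (Cn n →L[ℂ] ℂ) →L[ℝ] (Cn n →L[ℝ] ℝ) :=
  ((ContinuousLinearMap.compL ℝ (Cn n) ℂ ℝ) Complex.reCLM).comp
    (ContinuousLinearMap.restrictScalarsL ℂ (Cn n) ℂ ℝ ℝ)

theorem rpL_apply (A : Cn n →L[ℂ] ℂ) : rpL A = rp A := rfl

theorem hasFDerivAt_re {k : Cn n → ℂ} {A : Cn n →L[ℂ] ℂ} {z : Cn n} (h : HasFDerivAt k A z) :
    HasFDerivAt (fun z => (k z).re) (rp A) z :=
  Complex.reCLM.hasFDerivAt.comp z (h.restrictScalars ℝ)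

end Ph

open Ph

/-- row PHA -/
theorem pha : PHA := by
  intro n c r v α hα hv
  have hop : IsOpen (ball c r) := isOpen_ball
  have hcv : Convex ℝ (ball c r) := convex_ball c r
  have hαd : ∀ z ∈ ball c r, DifferentiableAt ℂ α z := fun z hz =>
    (hα z hz).differentiableAt (hop.mem_nhds hz)
  obtain ⟨k, hk⟩ := Convex.exists_forall_hasFDerivAt_of_fderiv_symmetric (𝕜 := ℂ)
    (ω := α) hcv hop
    (fun z hz => ((hαd z hz).restrictScalars ℝ).differentiableWithinAt)
    (by
      intro a ha x y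
      have h1 : HasFDerivAt α (fderiv ℂ α a) a := (hαd a ha).hasFDerivAt
      have h2 := (h1.restrictScalars ℝ).fderiv
      rw [h2]
      show fderiv ℂ α a x y = fderiv ℂ α a y x
      have h3 : HasFDerivAt (fun z => rp (α z))
          (rpL.comp ((fderiv ℂ α a).restrictScalars ℝ)) a :=
        rpL.hasFDerivAt.comp a (h1.restrictScalars ℝ)
      have h4 : ∀ᶠ y in 𝓝 a, HasFDerivAt v (rp (α y)) y := by
        filter_upwards [hop.mem_nhds ha] with y hy
        exact hv y hy
      have h5 : ∀ x y : Cn n, (fderiv ℂ α a x y).re = (fderiv ℂ α a y x).re :=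
        fun x y => second_derivative_symmetric_of_eventually h4 h3 x y
      have h6 := h5 (Complex.I • x) y
      rw [map_smul, map_smul, smul_apply, smul_eq_mul, smul_eq_mul] at h6
      simp only [Complex.mul_re, Complex.I_re, Complex.I_im, zero_mul, one_mul, zero_sub] at h6
      exact Complex.ext (h5 x y) (by linarith))
  have hd : ∀ z ∈ ball c r, HasFDerivAt (fun z => v z - (k z).re) (0 : Cn n →L[ℝ] ℝ) z := by
    intro z hz
    have h1 := (hv z hz).sub (hasFDerivAt_re (hk z hz))
    have h2 : Complex.reCLM.comp ((α z).restrictScalars ℝ) - rp (α z) = 0 := sub_self _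
    rw [h2] at h1
    exact h1
  obtain ⟨C, hC⟩ := hop.exists_is_const_of_fderiv_eq_zero (𝕜 := ℝ) hcv.isPreconnected
    (f := fun z => v z - (k z).re)
    (fun z hz => (hd z hz).differentiableAt.differentiableWithinAt)
    (fun z hz => (hd z hz).fderiv)
  refine ⟨fun z => k z + C, fun z hz =>
    ((hk z hz).differentiableAt.add_const _).differentiableWithinAt, fun z hz => ?_⟩
  have h1 := hC z hz
  simp only [Complex.add_re, Complex.ofReal_re]
  linarith

/-- row PHRE -/
theorem phre : PHRE := by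
  classical
  intro n v hv
  have hop : IsOpen (ball (0 : Cn n) 1) := isOpen_ball
  choose! k hk using hv
  have hre : ∀ z0 ∈ ball (0 : Cn n) 1, ∀ᶠ z in 𝓝 z0,
      HasFDerivAt v (rp (fderiv ℂ (k z0) z)) z := by
    intro z0 hz0
    have h1 := hk z0 hz0
    filter_upwards [h1.eventually_nhds] with z hz
    have h2 : DifferentiableAt ℂ (k z0) z := hz.self_of_nhds.1
    have h3 : HasFDerivAt (fun z => (k z0 z).re) (rp (fderiv ℂ (k z0) z)) z :=
      hasFDerivAt_re h2.hasFDerivAt
    refine h3.congr_of_eventuallyEq ?_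
    filter_upwards [hz] with y hy
    exact hy.2
  set α : Cn n → (Cn n →L[ℂ] ℂ) := fun z => fderiv ℂ (k z) z with hα
  have hαe : ∀ z0 ∈ ball (0 : Cn n) 1, α =ᶠ[𝓝 z0] fun z => fderiv ℂ (k z0) z := by
    intro z0 hz0
    filter_upwards [hre z0 hz0, hop.mem_nhds hz0] with z hz hzb
    exact rp_inj ((hre z hzb).self_of_nhds.unique hz)
  refine pha n 0 1 v α ?_ ?_
  · intro z0 hz0
    obtain ⟨U, hU, hUo, hUz⟩ := _root_.mem_nhds_iff.1 (hk z0 hz0)
    have h1 : DifferentiableOn ℂ (k z0) U := fun z hz => (hU hz).1.differentiableWithinAt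
    have h2 := Pool.Agent.K708.Hd.holo_contDiffOn_complex hUo h1
    have h3 : ContDiffAt ℂ 2 (k z0) z0 :=
      (h2.contDiffAt (hUo.mem_nhds hUz)).of_le (WithTop.coe_le_coe.2 (le_top : (2 : ℕ∞) ≤ ⊤))
    have h4 : DifferentiableAt ℂ (fderiv ℂ (k z0)) z0 :=
      (h3.fderiv_right (m := 1) (by norm_num)).differentiableAt (by norm_num)
    exact (h4.congr_of_eventuallyEq (hαe z0 hz0)).differentiableWithinAt
  · intro z hz
    exact (hre z hz).self_of_nhds

end Pool.Agent.Lib.MP_6ff8d9_an.H11
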