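import Pool.Agent.Lib.MP_6ff8d9_an_h8.SymRows
import Pool.Agent.Lib.MP_6ff8d9_an_h23.Proj

/-!
# Row CARTAN: the automorphisms of the ball of `ℂ²` are given by matrices
-/

open Metric Filter Topology MvPolynomial Matrix
open scoped ComplexConjugate

namespace Pool.Agent.Lib.MP_6ff8d9_an.N2

open Pool.Agent.Lib.MP_6ff8d9_an Pool.Agent.Lib.MP_6ff8d9_an.H22

noncomputable section

namespace Cart77

lemma norm_eq {f g : Cn 2 → Cn 2} (hf : DifferentiableOn ℂ f (ball 0 1))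
    (hg : DifferentiableOn ℂ g (ball 0 1)) (mf : ∀ z ∈ ball (0 : Cn 2) 1, f z ∈ ball (0 : Cn 2) 1)
    (mg : ∀ z ∈ ball (0 : Cn 2) 1, g z ∈ ball (0 : Cn 2) 1) (f0 : f 0 = 0) (g0 : g 0 = 0)
    (left : ∀ z ∈ ball (0 : Cn 2) 1, g (f z) = z) :
    ∀ z ∈ ball (0 : Cn 2) 1, ‖f z‖ = ‖z‖ := by
  intro z hz'
  have h1 : ‖f z‖ ≤ ‖z‖ := Complex.norm_le_norm_of_mapsTo_ball hf
    (fun w hw => ball_subset_closedBall (mf w hw)) f0 (mem_ball_zero_iff.1 hz')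
  have h2 : ‖g (f z)‖ ≤ ‖f z‖ := Complex.norm_le_norm_of_mapsTo_ball hg
    (fun w hw => ball_subset_closedBall (mg w hw)) g0 (mem_ball_zero_iff.1 (mf z hz'))
  rw [left z hz'] at h2
  exact le_antisymm h1 h2

lemma linear {f : Cn 2 → Cn 2} (hf : DifferentiableOn ℂ f (ball 0 1)) (f0 : f 0 = 0)
    (hn : ∀ z ∈ ball (0 : Cn 2) 1, ‖f z‖ = ‖z‖) :
    ∀ z ∈ ball (0 : Cn 2) 1, f z = fderiv ℂ f 0 z := by
  intro z hz'
  by_cases hz0 : z = 0
  · rw [hz0, f0, map_zero]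
  have hzn : (‖z‖ : ℂ) ≠ 0 := by exact_mod_cast norm_ne_zero_iff.2 hz0
  set ζ : Cn 2 := (‖z‖ : ℂ)⁻¹ • z with hζ
  have hζn : ‖ζ‖ = 1 := by
    rw [hζ, norm_smul, norm_inv, Complex.norm_real, norm_norm,
      inv_mul_cancel₀ (norm_ne_zero_iff.2 hz0)]
  have hzζ : (‖z‖ : ℂ) • ζ = z := by rw [hζ, smul_smul, mul_inv_cancel₀ hzn, one_smul]
  have hm : ∀ l ∈ ball (0 : ℂ) 1, l • ζ ∈ ball (0 : Cn 2) 1 := by
    intro l hl
    rw [mem_ball_zero_iff] at hl ⊢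
    rwa [norm_smul, hζn, mul_one]
  set g : ℂ → Cn 2 := fun l => f (l • ζ) with hg
  have hgd : DifferentiableOn ℂ g (ball 0 1) :=
    hf.comp (differentiable_id.smul_const ζ).differentiableOn hm
  have g0 : g 0 = 0 := by simp [hg, f0]
  have hgn : ∀ l ∈ ball (0 : ℂ) 1, ‖g l‖ = ‖l‖ := by
    intro l hl
    rw [hg]
    show ‖f (l • ζ)‖ = ‖l‖
    rw [hn _ (hm l hl), norm_smul, hζn, mul_one]
  have hmaps : Set.MapsTo g (ball 0 1) (closedBall (g 0) 1) := by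
    intro l hl
    rw [g0, mem_closedBall_zero_iff, hgn l hl]
    exact (mem_ball_zero_iff.1 hl).le
  have hhalf : (1 / 2 : ℂ) ∈ ball (0 : ℂ) 1 := by
    rw [mem_ball_zero_iff]; norm_num
  have hds : ‖dslope g 0 (1 / 2)‖ = 1 / 1 := by
    rw [dslope_of_ne _ (by norm_num), slope_def_module, g0, sub_zero, sub_zero, norm_smul,
      hgn _ hhalf]
    norm_num
  have haff := Complex.affine_of_mapsTo_ball_of_norm_dslope_eq_div hgd hmaps hhalf hds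
  set C : Cn 2 := dslope g 0 (1 / 2) with hC
  have haff' : ∀ l ∈ ball (0 : ℂ) 1, g l = l • C := by
    intro l hl
    have := haff hl
    simpa [g0] using this
  have hd0 : HasFDerivAt f (fderiv ℂ f 0) ((0 : ℂ) • ζ) := by
    rw [zero_smul]
    exact (hf.differentiableAt (ball_mem_nhds _ one_pos)).hasFDerivAt
  have hD1 : HasDerivAt g (fderiv ℂ f 0 ζ) 0 := by
    have h1 : HasDerivAt (fun l : ℂ => l • ζ) ζ 0 := by
      simpa using (hasDerivAt_id (0 : ℂ)).smul_const ζ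
    exact hd0.comp_hasDerivAt (0 : ℂ) h1
  have hD2 : HasDerivAt g C 0 := by
    have h1 : HasDerivAt (fun l : ℂ => l • C) C 0 := by
      simpa using (hasDerivAt_id (0 : ℂ)).smul_const C
    refine h1.congr_of_eventuallyEq ?_
    filter_upwards [ball_mem_nhds (0 : ℂ) one_pos] with l hl using haff' l hl
  have hCC : fderiv ℂ f 0 ζ = C := hD1.unique hD2
  have hzb : (‖z‖ : ℂ) ∈ ball (0 : ℂ) 1 := by
    rw [mem_ball_zero_iff, Complex.norm_real, norm_norm]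
    exact mem_ball_zero_iff.1 hz'
  calc f z = g (‖z‖ : ℂ) := by rw [hg]; show f z = f ((‖z‖ : ℂ) • ζ); rw [hzζ]
    _ = (‖z‖ : ℂ) • C := haff' _ hzb
    _ = (‖z‖ : ℂ) • fderiv ℂ f 0 ζ := by rw [hCC]
    _ = fderiv ℂ f 0 ((‖z‖ : ℂ) • ζ) := (ContinuousLinearMap.map_smul _ _ _).symm
    _ = fderiv ℂ f 0 z := by rw [hzζ]

lemma isom {L : Cn 2 →L[ℂ] Cn 2} (h : ∀ z ∈ ball (0 : Cn 2) 1, ‖L z‖ = ‖z‖) (z : Cn 2) :
    ‖L z‖ = ‖z‖ := by
  set c : ℝ := (‖z‖ + 1)⁻¹ with hc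
  have hp : 0 < ‖z‖ + 1 := by positivity
  have hc0 : 0 < c := inv_pos.2 hp
  have h1 : (c : ℂ) • z ∈ ball (0 : Cn 2) 1 := by
    rw [mem_ball_zero_iff, norm_smul, Complex.norm_real, Real.norm_of_nonneg hc0.le, hc,
      inv_mul_lt_iff₀ hp]
    linarith
  have h2 := h _ h1
  rw [map_smul, norm_smul, norm_smul] at h2
  have h3 : ‖(c : ℂ)‖ ≠ 0 := by
    rw [Complex.norm_real, Real.norm_of_nonneg hc0.le]; exact hc0.ne'
  exact mul_left_cancel₀ h3 h2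

lemma vec_eq (a b : ℂ) : (WithLp.toLp 2 ![a, b] : Cn 2) =
    a • EuclideanSpace.single 0 (1 : ℂ) + b • EuclideanSpace.single 1 (1 : ℂ) := by
  ext i
  fin_cases i <;> simp

/-- the matrix of `1 ⊕ L` -/
def blk (L : Cn 2 →L[ℂ] Cn 2) : Matrix (Fin 3) (Fin 3) ℂ :=
  !![1, 0, 0;
    0, L (EuclideanSpace.single 0 1) 0, L (EuclideanSpace.single 1 1) 0;
    0, L (EuclideanSpace.single 0 1) 1, L (EuclideanSpace.single 1 1) 1]

lemma blk_mulVec (L : Cn 2 →L[ℂ] Cn 2) (Z : Fin 3 → ℂ) :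
    blk L *ᵥ Z = ![Z 0, L (WithLp.toLp 2 ![Z 1, Z 2]) 0, L (WithLp.toLp 2 ![Z 1, Z 2]) 1] := by
  rw [vec_eq, map_add, map_smul, map_smul]
  funext i
  fin_cases i <;>
    simp [blk, Matrix.mulVec, dotProduct, Fin.sum_univ_three, mul_comm]

lemma blk_JU {L : Cn 2 →L[ℂ] Cn 2} (h : ∀ z, ‖L z‖ = ‖z‖) : JU (blk L) := by
  apply JU_of_herm
  intro Z W
  have h1 : inner ℂ (L (WithLp.toLp 2 ![W 1, W 2])) (L (WithLp.toLp 2 ![Z 1, Z 2])) =
      inner ℂ (WithLp.toLp 2 ![W 1, W 2] : Cn 2) (WithLp.toLp 2 ![Z 1, Z 2] : Cn 2) :=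
    LinearIsometry.inner_map_map (⟨L.toLinearMap, h⟩ : Cn 2 →ₗᵢ[ℂ] Cn 2) _ _
  simp only [PiLp.inner_apply, Fin.sum_univ_two, RCLike.inner_apply] at h1
  simp at h1
  rw [blk_mulVec, blk_mulVec]
  simp only [N2.herm]
  simp
  linear_combination h1

end Cart77

open Cart77 in
theorem cartan : CARTAN := by
  intro φ ψ hB
  set a : Fin 2 → ℂ := fun i => φ 0 i with ha
  have h0b : (0 : Cn 2) ∈ ball (0 : Cn 2) 1 := mem_ball_self one_pos
  have hab : a ∈ Bn 2 := ball_iff.1 (hB.mφ 0 h0b)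
  have hab' := mem_Bn2.1 hab
  set s : ℝ := 1 - (‖a 0‖ ^ 2 + ‖a 1‖ ^ 2) with hs
  have hs0 : 0 < s := by rw [hs]; linarith
  set r : ℝ := (√s)⁻¹ with hr
  have hr0 : 0 < r := by rw [hr]; positivity
  have hrs : r * r * s = 1 := by
    rw [hr, ← mul_inv, Real.mul_self_sqrt hs0.le, inv_mul_cancel₀ hs0.ne']
  have hv : herm ((r : ℂ) • hz a) ((r : ℂ) • hz a) = -1 := by
    rw [herm_smul_left, herm_smul_right, herm_hz, Complex.conj_ofReal]
    have : (-1 + ‖a 0‖ ^ 2 + ‖a 1‖ ^ 2 : ℝ) = - s := by rw [hs]; ring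
    rw [this]
    have h2 : ((r * (r * (-s)) : ℝ) : ℂ) = ((-1 : ℝ) : ℂ) := by
      congr 1
      linarith
    push_cast at h2
    push_cast
    exact h2
  obtain ⟨M, hM, c, hc, hMc⟩ := exists_move_neg hv
  have hc0 : c ≠ 0 := by
    intro h; rw [h, norm_zero] at hc; exact zero_ne_one hc
  have hrc : (r : ℂ) ≠ 0 := by exact_mod_cast hr0.ne'
  have hz0 : hz (fun i => (0 : Cn 2) i) = Pi.single 0 1 := by
    funext i
    fin_cases i <;> simp [hz]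
  have hM0 : actC M 0 = φ 0 := by
    unfold actC act
    rw [hz0, hMc, smul_smul, pr_smul (mul_ne_zero hc0 hrc), pr_hz]
  obtain ⟨-, hPB⟩ := proj M hM
  change BallAut 2 (actC M) (actC M⁻¹) at hPB
  set χ : Cn 2 → Cn 2 := fun z => actC M⁻¹ (φ z) with hχ
  set χ' : Cn 2 → Cn 2 := fun z => ψ (actC M z) with hχ'
  have c1 : DifferentiableOn ℂ χ (ball 0 1) := hPB.dψ.comp hB.dφ hB.mφ
  have c2 : DifferentiableOn ℂ χ' (ball 0 1) := hB.dψ.comp hPB.dφ hPB.mφ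
  have c3 : ∀ z ∈ ball (0 : Cn 2) 1, χ z ∈ ball (0 : Cn 2) 1 := fun z hz' =>
    hPB.mψ _ (hB.mφ z hz')
  have c4 : ∀ z ∈ ball (0 : Cn 2) 1, χ' z ∈ ball (0 : Cn 2) 1 := fun z hz' =>
    hB.mψ _ (hPB.mφ z hz')
  have c5 : χ 0 = 0 := by
    show actC M⁻¹ (φ 0) = 0
    rw [← hM0]
    exact hPB.left 0 h0b
  have c6 : χ' 0 = 0 := by
    show ψ (actC M 0) = 0
    rw [hM0]
    exact hB.left 0 h0b
  have c7 : ∀ z ∈ ball (0 : Cn 2) 1, χ' (χ z) = z := by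
    intro z hz'
    show ψ (actC M (actC M⁻¹ (φ z))) = z
    rw [hPB.right _ (hB.mφ z hz'), hB.left z hz']
  have hn := norm_eq c1 c2 c3 c4 c5 c6 c7
  have hl := linear c1 c5 hn
  set L := fderiv ℂ χ 0 with hL
  have hiso : ∀ z, ‖L z‖ = ‖z‖ := isom fun z hz' => by rw [← hl z hz', hn z hz']
  have hJ : JU (blk L) := blk_JU hiso
  refine ⟨M * blk L, hM.mul hJ, fun z hz' => ?_⟩
  have e1 : φ z = actC M (χ z) := (hPB.right _ (hB.mφ z hz')).symm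
  have e2 : (fun i => χ z i) = act (blk L) (fun i => z i) := by
    rw [hl z hz', act, blk_mulVec]
    have : (WithLp.toLp 2 ![hz (fun i => z i) 1, hz (fun i => z i) 2] : Cn 2) = z := by
      ext i
      fin_cases i <;> simp [hz]
    rw [this]
    funext i
    fin_cases i <;> simp [pr, hz]
  rw [e1]
  unfold actC
  rw [e2, act_comp _ _ (hJ.act_mem (ball_iff.1 hz')).1]

end

end Pool.Agent.Lib.MP_6ff8d9_an.N2
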