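import Pool.Agent.Lib.MP_6ff8d9_an_h8.SymRows2

/-!
# MP_6ff8d9, dimension 2, row EQT: equivalence is transitive and symmetric
-/

open Metric Filter Topology MvPolynomial Matrix
open scoped ComplexConjugate

namespace Pool.Agent.Lib.MP_6ff8d9_an.N2

open Pool.Agent.Lib.MP_6ff8d9_an Pool.Agent.Lib.MP_6ff8d9_an.H22

noncomputable section

namespace Eqt77

/-- composition of automorphisms -/
lemma aut_comp {n : ℕ} {φ ψ φ' ψ' : Cn n → Cn n} (h : BallAut n φ ψ) (h' : BallAut n φ' ψ') :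
    BallAut n (φ' ∘ φ) (ψ ∘ ψ') where
  dφ := h'.dφ.comp h.dφ h.mφ
  dψ := h.dψ.comp h'.dψ h'.mψ
  mφ := fun z hz => h'.mφ _ (h.mφ z hz)
  mψ := fun z hz => h.mψ _ (h'.mψ z hz)
  left := fun z hz => by
    show ψ (ψ' (φ' (φ z))) = z
    rw [h'.left _ (h.mφ z hz), h.left z hz]
  right := fun z hz => by
    show φ' (φ (ψ (ψ' z))) = z
    rw [h.right _ (h'.mψ z hz), h'.right z hz]

/-- inverse automorphisms -/
lemma aut_symm {n : ℕ} {φ ψ : Cn n → Cn n} (h : BallAut n φ ψ) : BallAut n ψ φ :=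
  ⟨h.dψ, h.dφ, h.mψ, h.mφ, h.right, h.left⟩

/-- real and imaginary part of a normalised value -/
lemma re_im (w : ℂ) (α β : ℝ) :
    ((w - Complex.I * (β : ℂ)) / (α : ℂ)).re = w.re / α ∧
    ((w - Complex.I * (β : ℂ)) / (α : ℂ)).im = (w.im - β) / α := by
  constructor
  · rw [Complex.div_ofReal_re]
    simp
  · rw [Complex.div_ofReal_im]
    simp

/-- normalising twice -/
lemma nrm_nrm {n : ℕ} {H : Cn n → ℂ} {φ φ' : Cn n → Cn n} {G : Cn n → ℂ}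
    (hG : ∀ z ∈ ball (0 : Cn n) 1, G z = nrm H φ' z) (hφ : ∀ z ∈ ball (0 : Cn n) 1,
      φ z ∈ ball (0 : Cn n) 1) (h0 : (H (φ' 0)).re ≠ 0) (h1 : (H (φ' (φ 0))).re ≠ 0)
    {z : Cn n} (hz : z ∈ ball (0 : Cn n) 1) : nrm G φ z = nrm H (φ' ∘ φ) z := by
  have hb0 : (0 : Cn n) ∈ ball (0 : Cn n) 1 := by simp
  unfold nrm
  rw [hG _ (hφ z hz), hG _ (hφ 0 hb0)]
  unfold nrm
  simp only [Function.comp]
  obtain ⟨e1, e2⟩ := re_im (H (φ' (φ 0))) (H (φ' 0)).re (H (φ' 0)).im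
  rw [e1, e2]
  have h0' : ((H (φ' 0)).re : ℂ) ≠ 0 := by exact_mod_cast h0
  have h1' : ((H (φ' (φ 0))).re : ℂ) ≠ 0 := by exact_mod_cast h1
  push_cast
  field_simp
  ring

end Eqt77

/-- row EQT -/
theorem eqt : EQT := by
  have hb0 : (0 : Cn 2) ∈ ball (0 : Cn 2) 1 := by simp
  constructor
  · rintro g G H hH ⟨φ, ψ, hA, hg⟩ ⟨φ', ψ', hA', hG⟩
    refine ⟨φ' ∘ φ, ψ ∘ ψ', Eqt77.aut_comp hA hA', fun z hz => ?_⟩
    rw [hg z hz]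
    exact Eqt77.nrm_nrm hG hA.mφ (hH.2.1 _ (hA'.mφ _ hb0)).ne'
      (hH.2.1 _ (hA'.mφ _ (hA.mφ _ hb0))).ne' hz
  · rintro g G hG ⟨φ, ψ, hA, hg⟩
    refine ⟨ψ, φ, Eqt77.aut_symm hA, fun z hz => ?_⟩
    rw [Eqt77.nrm_nrm hg hA.mψ (hG.2.1 _ (hA.mφ _ hb0)).ne'
      (hG.2.1 _ (hA.mφ _ (hA.mψ _ hb0))).ne' hz]
    unfold nrm
    simp only [Function.comp]
    rw [hA.right z hz, hA.right 0 hb0, hG.2.2]
    simp

end

end Pool.Agent.Lib.MP_6ff8d9_an.N2
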