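import Pool.Agent.Lib.MP_6ff8d9_an_h77.Radial
import Pool.Agent.Lib.MP_6ff8d9_an_h22.Rows0

/-!
# MP_6ff8d9 RATIONAL, rows RADIAL0 and POINC0 (zeros of `Q` on the sphere allowed)
-/

set_option autoImplicit false

open Metric Filter Topology MvPolynomial
open scoped ComplexConjugate

namespace Pool.Agent.Lib.MP_6ff8d9_an.H22

open Pool.Agent.Lib.MP_6ff8d9_an Pool.Agent.Lib.MP_6ff8d9_an.Hom

open Poinc Radial

/-- on the open ball `Q` has no zero -/
theorem Adm0.Qne_ball {n : ℕ} {P Q : MvPolynomial (Fin n) ℂ} (h : Adm0 P Q) {z : Fin n → ℂ}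
    (hz : z ∈ Bn n) : eval z Q ≠ 0 := by
  intro h0
  have h1 := h.lt z hz
  rw [h0, norm_zero] at h1
  exact absurd h1 (not_lt.2 (norm_nonneg _))

/-- row RADIAL0 -/
theorem radial0_of (hCon : CONTACT0) : RADIAL0 := by
  intro n P Q hadm m hm
  obtain ⟨hm1, hQm, hm2⟩ := hm
  have hPm : eval m P ≠ 0 := by
    intro h
    rw [h, norm_zero] at hm2
    exact hQm (norm_eq_zero.1 hm2.symm)
  have hray0 : (fun t : ℝ => (1 - (t : ℂ)) • m) 0 = m := by simp
  have hrayt : Tendsto (fun t : ℝ => (1 - (t : ℂ)) • m) (𝓝 0) (𝓝 m) := by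
    have := (continuous_ray m).tendsto 0
    simpa using this
  have hfrm := analyticAt_fr P Q m hQm
  refine ⟨?_, ?_⟩
  · exact (hfrm.continuousAt.tendsto.comp hrayt).mono_left nhdsWithin_le_nhds
  · -- the derivative near `0`
    obtain ⟨b, hb, hR⟩ := (hCon n P Q hadm m ⟨hm1, hQm, hm2⟩).2
    have hRm : eval m (Rr P Q) ≠ 0 := by
      rw [hR]
      exact mul_ne_zero (by exact_mod_cast hb.ne') (mul_ne_zero hPm hQm)
    have hRc : ∀ᶠ z in 𝓝 m, eval z (Rr P Q) ≠ 0 :=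
      (analyticAt_eval (Rr P Q) m).continuousAt.eventually_ne hRm
    have hQc : ∀ᶠ z in 𝓝 m, eval z Q ≠ 0 :=
      (analyticAt_eval Q m).continuousAt.eventually_ne hQm
    have h1 : ∀ᶠ t : ℝ in 𝓝[>] 0, eval ((1 - (t : ℂ)) • m) (Rr P Q) ≠ 0 :=
      (hrayt.eventually hRc).filter_mono nhdsWithin_le_nhds
    have h2 : ∀ᶠ t : ℝ in 𝓝[>] 0, eval ((1 - (t : ℂ)) • m) Q ≠ 0 :=
      (hrayt.eventually hQc).filter_mono nhdsWithin_le_nhds
    have h3 : ∀ᶠ t : ℝ in 𝓝[>] 0, t < 1 := by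
      have : ∀ᶠ t : ℝ in 𝓝 (0 : ℝ), t < 1 := gt_mem_nhds one_pos
      exact this.filter_mono nhdsWithin_le_nhds
    have h4 : ∀ᶠ t : ℝ in 𝓝[>] 0, 0 < t := self_mem_nhdsWithin
    filter_upwards [h1, h2, h3, h4] with t ht1 ht2 ht3 ht4
    have hmem : (1 - (t : ℂ)) • m ∈ Bn n := ray_mem hm1 ht4 ht3.le
    refine ⟨?_, ?_⟩
    · have h5 := hadm.lt _ hmem
      unfold fr
      rw [norm_div, div_lt_one (norm_pos_iff.2 ht2)]
      exact h5
    · have h6 : HasFDerivAt (fr P Q) (fderiv ℂ (fr P Q) ((1 - (t : ℂ)) • m))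
          ((fun t : ℝ => (1 - (t : ℂ)) • m) t) :=
        (analyticAt_fr P Q _ ht2).differentiableAt.hasFDerivAt
      have h7 : HasDerivAt (fun t : ℝ => fr P Q ((1 - (t : ℂ)) • m))
          ((fderiv ℂ (fr P Q) ((1 - (t : ℂ)) • m)) (-m)) t := by
        have h6' := h6.restrictScalars ℝ
        have h6'' := HasFDerivAt.comp_hasDerivAt t h6' (hasDerivAt_ray m t)
        exact h6''
      refine ⟨_, ?_, h7⟩
      intro h8
      apply ht1
      have hs : (1 - (t : ℂ)) ≠ 0 := by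
        have : ((1 - t : ℝ) : ℂ) ≠ 0 := by exact_mod_cast (by linarith : (1 - t : ℝ) ≠ 0)
        simpa using this
      have h9 : (fderiv ℂ (fr P Q) ((1 - (t : ℂ)) • m)) ((1 - (t : ℂ)) • m) = 0 := by
        rw [map_smul]
        rw [map_neg, neg_eq_zero] at h8
        rw [h8, smul_zero]
      rw [apply_eq_sum] at h9
      have h10 : ∑ i, ((1 - (t : ℂ)) • m) i * (eval ((1 - (t : ℂ)) • m) (Wr P Q i) /
          eval ((1 - (t : ℂ)) • m) Q ^ 2) = 0 := by
        rw [← h9]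
        refine Finset.sum_congr rfl fun i _ => ?_
        rw [fderiv_fr P Q _ ht2 i]
      have h11 : eval ((1 - (t : ℂ)) • m) (Rr P Q) =
          eval ((1 - (t : ℂ)) • m) Q ^ 2 * ∑ i, ((1 - (t : ℂ)) • m) i *
            (eval ((1 - (t : ℂ)) • m) (Wr P Q i) / eval ((1 - (t : ℂ)) • m) Q ^ 2) := by
        rw [Finset.mul_sum]
        unfold Rr
        rw [map_sum]
        refine Finset.sum_congr rfl fun i _ => ?_
        rw [map_mul, eval_X]
        field_simp
      rw [h11, h10, mul_zero]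

/-- row POINC0 -/
theorem poinc0 : POINC0 := by
  intro n P Q hadm k hk hw j
  have hQ : ∀ z ∈ Bn n, eval z Q ≠ 0 := fun z hz => hadm.Qne_ball hz
  have hop := isOpen_Bn n
  have hfr : ∀ z ∈ Bn n, AnalyticAt ℂ (fr P Q) z := fun z hz => analyticAt_fr P Q z (hQ z hz)
  have hkd : ∀ z ∈ Bn n, DifferentiableAt ℂ k z := fun z hz =>
    hk.differentiableAt (hop.mem_nhds hz)
  set c : (Fin n → ℂ) → ℂ := fun z => k z * fr P Q z ^ j with hc
  have hcd : ∀ z ∈ Bn n, DifferentiableAt ℂ c z := fun z hz =>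
    (hkd z hz).mul ((hfr z hz).differentiableAt.pow j)
  have hfd : ∀ z ∈ Bn n, DifferentiableAt ℂ (fun z => fderiv ℂ (fr P Q) z) z := fun z hz =>
    (hfr z hz).fderiv.differentiableAt
  -- the wedge condition for `c`
  have hwk : ∀ z ∈ Bn n, ∀ x y, fderiv ℂ k z x * fderiv ℂ (fr P Q) z y =
      fderiv ℂ k z y * fderiv ℂ (fr P Q) z x := by
    intro z hz x y
    refine wedge_all (fun i j => ?_) x y
    rw [fderiv_fr P Q z (hQ z hz), fderiv_fr P Q z (hQ z hz)]
    have := hw z hz i j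
    rw [div_mul_eq_mul_div, div_mul_eq_mul_div, this]
  have hcf : ∀ z ∈ Bn n, ∀ x, fderiv ℂ c z x = fr P Q z ^ j * fderiv ℂ k z x +
      k z * (j * fr P Q z ^ (j - 1)) * fderiv ℂ (fr P Q) z x := by
    intro z hz x
    have h1 : HasFDerivAt c _ z := (hkd z hz).hasFDerivAt.mul
      ((hfr z hz).differentiableAt.hasFDerivAt.pow j)
    rw [h1.fderiv]
    simp only [add_apply, smul_apply, smul_eq_mul,
      nsmul_eq_mul]
    ring
  have hwc : ∀ z ∈ Bn n, ∀ x y, fderiv ℂ c z x * fderiv ℂ (fr P Q) z y =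
      fderiv ℂ c z y * fderiv ℂ (fr P Q) z x := by
    intro z hz x y
    rw [hcf z hz, hcf z hz]
    linear_combination (fr P Q z ^ j) * hwk z hz x y
  -- the form
  obtain ⟨h, hh⟩ := Convex.exists_forall_hasFDerivAt_of_fderiv_symmetric (𝕜 := ℂ)
    (ω := fun z => c z • fderiv ℂ (fr P Q) z) (convex_Bn n) hop
    (fun z hz => (((hcd z hz).smul (hfd z hz)).restrictScalars ℝ).differentiableWithinAt)
    (by
      intro a ha x y
      have hd := (hcd a ha).smul (hfd a ha)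
      have h1 : HasFDerivAt (fun z => c z • fderiv ℂ (fr P Q) z) _ a :=
        (hcd a ha).hasFDerivAt.smul (hfd a ha).hasFDerivAt
      have h2 := (h1.restrictScalars ℝ).fderiv
      rw [h2]
      have hs : fderiv ℂ (fderiv ℂ (fr P Q)) a x y = fderiv ℂ (fderiv ℂ (fr P Q)) a y x := by
        have h3 : ContDiffAt ℂ (minSmoothness ℂ 2) (fr P Q) a := (hfr a ha).contDiffAt
        exact (h3.isSymmSndFDerivAt le_rfl).eq x y
      have e := hwc a ha x y
      have e1 : fderiv ℂ (fun z => fderiv ℂ (fr P Q) z) a = fderiv ℂ (fderiv ℂ (fr P Q)) a := rfl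
      simp only [ContinuousLinearMap.coe_restrictScalars', add_apply,
        smul_apply, ContinuousLinearMap.smulRight_apply, smul_eq_mul, e1, hs]
      linear_combination e)
  refine ⟨h, fun z hz => (hh z hz).differentiableAt.differentiableWithinAt, ?_,
    fun z hz => (hh z hz).fderiv⟩
  intro z hz i l
  rw [(hh z hz).fderiv]
  simp only [smul_apply, smul_eq_mul]
  rw [fderiv_fr P Q z (hQ z hz), fderiv_fr P Q z (hQ z hz)]
  ring

end Pool.Agent.Lib.MP_6ff8d9_an.H22
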